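import Mathlib

/-!
# Separating partition regularity over `P_i` and `P_j`

For all `1 ≤ i < j` the pattern `{z + w, x y, z ^ i w + t}` appears in `P_i`, is partition regular
over `P_j` and is not partition regular over `P_i`.
-/

namespace Pool.Agent.Results.MP_b358a5_co.Separation

open MvPolynomial

/-- `P d`: the nonzero polynomials in countably many indeterminates with coefficients in `ℕ` and
zero constant term, of degree at most `d` in each indeterminate. -/
def P (d : ℕ) : Set (MvPolynomial ℕ ℕ) :=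
  {f | f ≠ 0 ∧ coeff 0 f = 0 ∧ ∀ n, degreeOf n f ≤ d}

/-- A pattern in `m` formal variables with `k` members, given by polynomials with coefficients in
`ℕ`; it is good if all its members have zero constant term. -/
def Good {k m : ℕ} (F : Fin k → MvPolynomial (Fin m) ℕ) : Prop := ∀ l, coeff 0 (F l) = 0

/-- `a` is a copy of the pattern `F` in `S`: all entries of `a` and all values `F_l(a)` lie in
`S`. -/
def IsCopy {k m : ℕ} (F : Fin k → MvPolynomial (Fin m) ℕ) (S : Set (MvPolynomial ℕ ℕ))
    (a : Fin m → MvPolynomial ℕ ℕ) : Prop :=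
  (∀ s, a s ∈ S) ∧ ∀ l, aeval a (F l) ∈ S

/-- The pattern appears in `S`. -/
def Appears {k m : ℕ} (F : Fin k → MvPolynomial (Fin m) ℕ) (S : Set (MvPolynomial ℕ ℕ)) : Prop :=
  ∃ a, IsCopy F S a

/-- The pattern is partition regular over `S`: for every colouring with finitely many colours (only
the colours of the elements of `S` matter) some copy of `F` in `S` has all its values of the same
colour. -/
def PartitionRegular {k m : ℕ} (F : Fin k → MvPolynomial (Fin m) ℕ)
    (S : Set (MvPolynomial ℕ ℕ)) : Prop :=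
  ∀ (r : ℕ) (c : MvPolynomial ℕ ℕ → Fin r), ∃ a, IsCopy F S a ∧
    ∃ col, ∀ l, c (aeval a (F l)) = col

/-- The pattern `{z + w, x y, z ^ i w + t}`. -/
noncomputable def pat (i : ℕ) : Fin 3 → MvPolynomial (Fin 5) ℕ :=
  ![X 0 + X 1, X 2 * X 3, X 0 ^ i * X 1 + X 4]

lemma aeval_pat0 (i : ℕ) (a : Fin 5 → MvPolynomial ℕ ℕ) : aeval a (pat i 0) = a 0 + a 1 := by
  simp [pat]

lemma aeval_pat1 (i : ℕ) (a : Fin 5 → MvPolynomial ℕ ℕ) : aeval a (pat i 1) = a 2 * a 3 := by
  simp [pat]

lemma aeval_pat2 (i : ℕ) (a : Fin 5 → MvPolynomial ℕ ℕ) :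
    aeval a (pat i 2) = a 0 ^ i * a 1 + a 4 := by
  simp [pat]

lemma good_pat (i : ℕ) : Good (pat i) := by
  intro l
  rw [← constantCoeff_eq]
  fin_cases l <;> simp [pat]

/-! ### No cancellation -/

lemma support_add_left {p q : MvPolynomial ℕ ℕ} : p.support ⊆ (p + q).support := by
  intro m hm
  rw [mem_support_iff] at hm ⊢
  rw [coeff_add]
  omega

lemma support_add_right {p q : MvPolynomial ℕ ℕ} : q.support ⊆ (p + q).support := by
  rw [add_comm]; exact support_add_left

lemma degreeOf_le_add {p q : MvPolynomial ℕ ℕ} (n : ℕ) : degreeOf n p ≤ degreeOf n (p + q) := by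
  rw [degreeOf_eq_sup, degreeOf_eq_sup]
  exact Finset.sup_mono support_add_left

lemma mem_of_add {d : ℕ} {p q : MvPolynomial ℕ ℕ} (h : p + q ∈ P d) (hp : p ≠ 0) : p ∈ P d := by
  obtain ⟨_, h2, h3⟩ := h
  refine ⟨hp, ?_, fun n => (degreeOf_le_add n).trans (h3 n)⟩
  rw [coeff_add] at h2
  omega

lemma mem_of_mul {d : ℕ} {p q : MvPolynomial ℕ ℕ} (h : p * q ∈ P d) (hp : coeff 0 p = 0) :
    p ∈ P d := by
  obtain ⟨h1, _, h3⟩ := h
  have hp0 : p ≠ 0 := left_ne_zero_of_mul h1
  have hq0 : q ≠ 0 := right_ne_zero_of_mul h1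
  refine ⟨hp0, hp, fun n => ?_⟩
  have := h3 n
  rw [degreeOf_mul_eq hp0 hq0] at this
  omega

/-- A sum of two polynomials without common variables is not a product. -/
lemma sum_not_prod {z w f g : MvPolynomial ℕ ℕ} (hz : z ≠ 0) (hw : w ≠ 0)
    (hdis : ∀ n, degreeOf n z = 0 ∨ degreeOf n w = 0) (hf : coeff 0 f = 0) (hg : coeff 0 g = 0)
    (h : z + w = f * g) : False := by
  classical
  have hdz : ∀ m ∈ z.support, ∀ n, m n ≤ degreeOf n z := fun m hm n => by
    rw [degreeOf_eq_sup]
    exact Finset.le_sup (f := fun m : ℕ →₀ ℕ => m n) hm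
  have hdw : ∀ m ∈ w.support, ∀ n, m n ≤ degreeOf n w := fun m hm n => by
    rw [degreeOf_eq_sup]
    exact Finset.le_sup (f := fun m : ℕ →₀ ℕ => m n) hm
  obtain ⟨m, hm⟩ := (support_nonempty.2 hz)
  obtain ⟨m', hm'⟩ := (support_nonempty.2 hw)
  have h1 : m ∈ (f * g).support := by rw [← h]; exact support_add_left hm
  have h2 : m' ∈ (f * g).support := by rw [← h]; exact support_add_right hm'
  obtain ⟨m1, hm1, m1', hm1', e1⟩ := Finset.mem_add.1 (support_mul f g h1)
  obtain ⟨m2', hm2', m2, hm2, e2⟩ := Finset.mem_add.1 (support_mul f g h2)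
  -- the monomial m1 + m2
  have hpos : m1 + m2 ∈ (f * g).support := by
    rw [mem_support_iff, coeff_mul]
    intro h0
    rw [Finset.sum_eq_zero_iff] at h0
    have := h0 (m1, m2) (Finset.HasAntidiagonal.mem_antidiagonal.2 rfl)
    rw [mem_support_iff] at hm1 hm2
    exact absurd this (mul_ne_zero hm1 hm2)
  have hne1 : m1 ≠ 0 := by
    rintro rfl
    rw [mem_support_iff] at hm1
    exact hm1 hf
  have hne2 : m2 ≠ 0 := by
    rintro rfl
    rw [mem_support_iff] at hm2
    exact hm2 hg
  obtain ⟨n1, hn1⟩ : ∃ n, m1 n ≠ 0 := by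
    by_contra hcon
    push Not at hcon
    exact hne1 (Finsupp.ext hcon)
  obtain ⟨n2, hn2⟩ : ∃ n, m2 n ≠ 0 := by
    by_contra hcon
    push Not at hcon
    exact hne2 (Finsupp.ext hcon)
  have hzn1 : degreeOf n1 z ≠ 0 := by
    have := hdz m hm n1
    rw [← e1, Finsupp.add_apply] at this
    omega
  have hwn2 : degreeOf n2 w ≠ 0 := by
    have := hdw m' hm' n2
    rw [← e2, Finsupp.add_apply] at this
    omega
  have hwn1 : degreeOf n1 w = 0 := (hdis n1).resolve_left hzn1
  have hzn2 : degreeOf n2 z = 0 := (hdis n2).resolve_right hwn2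
  rw [← h] at hpos
  have hcase : m1 + m2 ∈ z.support ∨ m1 + m2 ∈ w.support := by
    rw [mem_support_iff, coeff_add] at hpos
    rw [mem_support_iff, mem_support_iff]
    omega
  rcases hcase with hc | hc
  · have := hdz _ hc n2
    rw [Finsupp.add_apply] at this
    omega
  · have := hdw _ hc n1
    rw [Finsupp.add_apply] at this
    omega

/-- The pattern is not partition regular over `P i`. -/
lemma not_regular {i : ℕ} (hi : 1 ≤ i) : ¬ PartitionRegular (pat i) (P i) := by
  classical
  intro h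
  obtain ⟨a, ⟨ha, hF⟩, col, hcol⟩ := h 2 (fun f =>
    if ∃ g h : MvPolynomial ℕ ℕ, coeff 0 g = 0 ∧ coeff 0 h = 0 ∧ f = g * h then 1 else 0)
  have h0 := hcol 0
  have h1 := hcol 1
  rw [aeval_pat0] at h0
  rw [aeval_pat1, if_pos ⟨a 2, a 3, (ha 2).2.1, (ha 3).2.1, rfl⟩] at h1
  rw [← h1] at h0
  split_ifs at h0 with hprod
  · obtain ⟨f, g, hf, hg, hfg⟩ := hprod
    refine sum_not_prod (ha 0).1 (ha 1).1 ?_ hf hg hfg
    intro n
    by_contra hcon
    push Not at hcon
    have h2 := (hF 2).2.2 n
    rw [aeval_pat2] at h2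
    have h3 := (degreeOf_le_add (p := a 0 ^ i * a 1) (q := a 4) n).trans h2
    rw [degreeOf_mul_eq (pow_ne_zero _ (ha 0).1) (ha 1).1, degreeOf_pow_eq _ _ _ (ha 0).1] at h3
    have h4 : i ≤ i * degreeOf n (a 0) := Nat.le_mul_of_pos_right _ (Nat.pos_of_ne_zero hcon.1)
    have := hcon.2
    omega
  · exact absurd h0 (by decide)

/-! ### Partition regularity over `P (i+1)` -/

/-- the variable `u` -/
noncomputable def u : MvPolynomial ℕ ℕ := X 0
/-- the variables `y_m` -/
noncomputable def y (m : ℕ) : MvPolynomial ℕ ℕ := X (2 * m + 1)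
/-- the variables `r_m` -/
noncomputable def rr (m : ℕ) : MvPolynomial ℕ ℕ := X (2 * m + 2)

/-- the sums `S_m` -/
noncomputable def S (i : ℕ) : ℕ → MvPolynomial ℕ ℕ
  | 0 => 0
  | m + 1 => y m ^ (i + 1) * rr m ^ i * (u + S i m) + y m * S i m

/-- `Y_{m, M} = ∏_{m < l < M} y_l` -/
noncomputable def Y (m M : ℕ) : MvPolynomial ℕ ℕ := ∏ l ∈ Finset.Ioo m M, y l

/-- the members `f_m` of the sequence -/
noncomputable def f (i M m : ℕ) : MvPolynomial ℕ ℕ := y m * (Y m M * (u + S i m) + rr m)

lemma Y_split {k m M : ℕ} (h1 : k < m) (h2 : m < M) : Y k M = Y k m * (y m * Y m M) := by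
  unfold Y
  have : Finset.Ioo k M = Finset.Ioo k m ∪ ({m} ∪ Finset.Ioo m M) := by
    ext l
    simp only [Finset.mem_Ioo, Finset.mem_union, Finset.mem_singleton]
    omega
  rw [this, Finset.prod_union, Finset.prod_union, Finset.prod_singleton]
  · rw [Finset.disjoint_left]
    intro l hl
    simp only [Finset.mem_Ioo, Finset.mem_singleton] at *
    omega
  · rw [Finset.disjoint_left]
    intro l hl
    simp only [Finset.mem_Ioo, Finset.mem_union, Finset.mem_singleton] at *
    omega

lemma Y_succ {k m : ℕ} (h : k < m) : Y k (m + 1) = y m * Y k m := by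
  unfold Y
  have : Finset.Ioo k (m + 1) = insert m (Finset.Ioo k m) := by
    ext l
    simp only [Finset.mem_Ioo, Finset.mem_insert]
    omega
  rw [this, Finset.prod_insert (by simp)]

/-- `S_m` dominates its `k`-th summand. -/
lemma S_dominates (i k : ℕ) (m : ℕ) (h : k < m) :
    ∃ t, S i m = y k ^ (i + 1) * rr k ^ i * (u + S i k) * Y k m + t := by
  induction m with
  | zero => omega
  | succ m ih =>
    rcases Nat.lt_succ_iff_lt_or_eq.1 h with h' | h'
    · obtain ⟨t, ht⟩ := ih h'
      refine ⟨y m ^ (i + 1) * rr m ^ i * (u + S i m) + y m * t, ?_⟩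
      have e : S i (m + 1) = y m ^ (i + 1) * rr m ^ i * (u + S i m) + y m * S i m := rfl
      rw [e, Y_succ h']
      nth_rewrite 2 [ht]
      ring
    · subst h'
      refine ⟨y k * S i k, ?_⟩
      have e : S i (k + 1) = y k ^ (i + 1) * rr k ^ i * (u + S i k) + y k * S i k := rfl
      have e2 : Y k (k + 1) = 1 := by
        unfold Y
        have : Finset.Ioo k (k + 1) = ∅ := by
          ext l; simp only [Finset.mem_Ioo, Finset.notMem_empty, iff_false]; omega
        rw [this, Finset.prod_empty]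
      rw [e, e2, mul_one]

lemma deg_S (i m : ℕ) : (∀ n, degreeOf n (S i m) ≤ i + 1) ∧
    (∀ n, 2 * m + 1 ≤ n → degreeOf n (S i m) = 0) := by
  induction m with
  | zero => exact ⟨fun n => by simp [S], fun n _ => by simp [S]⟩
  | succ m ih =>
    obtain ⟨h1, h2⟩ := ih
    have e : S i (m + 1) = y m ^ (i + 1) * rr m ^ i * (u + S i m) + y m * S i m := rfl
    have hbound : ∀ n, degreeOf n (S i (m + 1)) ≤
        max ((i + 1) * (if n = 2 * m + 1 then 1 else 0) + i * (if n = 2 * m + 2 then 1 else 0) +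
          max (if n = 0 then 1 else 0) (degreeOf n (S i m)))
          ((if n = 2 * m + 1 then 1 else 0) + degreeOf n (S i m)) := by
      intro n
      rw [e]
      refine (degreeOf_add_le _ _ _).trans (max_le_max ?_ ?_)
      · refine (degreeOf_mul_le _ _ _).trans (add_le_add ?_ ?_)
        · refine (degreeOf_mul_le _ _ _).trans (add_le_add ?_ ?_)
          · refine (degreeOf_pow_le _ _ _).trans ?_
            unfold y
            rw [degreeOf_X]
          · refine (degreeOf_pow_le _ _ _).trans ?_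
            unfold rr
            rw [degreeOf_X]
        · refine (degreeOf_add_le _ _ _).trans (max_le_max ?_ le_rfl)
          unfold u
          rw [degreeOf_X]
      · refine (degreeOf_mul_le _ _ _).trans (add_le_add ?_ le_rfl)
        unfold y
        rw [degreeOf_X]
    constructor
    · intro n
      refine (hbound n).trans ?_
      have a1 := h1 n
      rcases lt_or_ge n (2 * m + 1) with hn | hn
      · rw [if_neg (by omega), if_neg (by omega)]
        split_ifs <;> simp <;> omega
      · have a2 := h2 n hn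
        rw [a2, if_neg (by omega : ¬ n = 0)]
        split_ifs <;> simp <;> omega
    · intro n hn
      have := hbound n
      rw [h2 n (by omega), if_neg (by omega), if_neg (by omega), if_neg (by omega)] at this
      simpa using this

lemma deg_Y (m M n : ℕ) : degreeOf n (Y m M) ≤ if 2 * m + 1 < n then 1 else 0 := by
  unfold Y
  refine (degreeOf_prod_le _ _ _).trans ?_
  have h1 : ∀ l ∈ Finset.Ioo m M, degreeOf n (y l) = if n = 2 * l + 1 then 1 else 0 := by
    intro l _
    unfold y
    rw [degreeOf_X]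
  rw [Finset.sum_congr rfl h1]
  split_ifs with hn
  · calc ∑ l ∈ Finset.Ioo m M, (if n = 2 * l + 1 then 1 else 0)
        = ((Finset.Ioo m M).filter (fun l => n = 2 * l + 1)).card := by
          rw [Finset.card_filter]
      _ ≤ 1 := by
          rw [Finset.card_le_one]
          intro a ha b hb
          rw [Finset.mem_filter] at ha hb
          omega
  · refine (Finset.sum_eq_zero fun l hl => ?_).le
    rw [Finset.mem_Ioo] at hl
    rw [if_neg (by omega)]

lemma f_mem (i M m : ℕ) : f i M m ∈ P (i + 1) := by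
  have hY : Y m M ≠ 0 := Finset.prod_ne_zero_iff.2 fun l _ => X_ne_zero _
  refine ⟨?_, ?_, ?_⟩
  · unfold f
    refine mul_ne_zero (X_ne_zero _) ?_
    intro h
    have h2 : (Y m M * (u + S i m) + rr m).support = ∅ := by rw [h]; exact support_zero
    have h3 : (rr m).support ⊆ ∅ := h2 ▸ support_add_right
    have : rr m = 0 := support_eq_empty.1 (Finset.subset_empty.1 h3)
    exact X_ne_zero _ this
  · unfold f y
    rw [← constantCoeff_eq, map_mul, constantCoeff_X, zero_mul]
  · intro n
    unfold f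
    have hb : degreeOf n (y m * (Y m M * (u + S i m) + rr m)) ≤
        (if n = 2 * m + 1 then 1 else 0) +
          max ((if 2 * m + 1 < n then 1 else 0) +
            max (if n = 0 then 1 else 0) (degreeOf n (S i m)))
          (if n = 2 * m + 2 then 1 else 0) := by
      refine (degreeOf_mul_le _ _ _).trans (add_le_add ?_ ?_)
      · unfold y; rw [degreeOf_X]
      · refine (degreeOf_add_le _ _ _).trans (max_le_max ?_ ?_)
        · refine (degreeOf_mul_le _ _ _).trans (add_le_add (deg_Y m M n) ?_)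
          refine (degreeOf_add_le _ _ _).trans (max_le_max ?_ le_rfl)
          unfold u; rw [degreeOf_X]
        · unfold rr; rw [degreeOf_X]
    refine hb.trans ?_
    have a1 := (deg_S i m).1 n
    rcases lt_or_ge n (2 * m + 1) with hn | hn
    · rw [if_neg (by omega : ¬ n = 2 * m + 1), if_neg (by omega : ¬ 2 * m + 1 < n),
        if_neg (by omega : ¬ n = 2 * m + 2)]
      split_ifs <;> simp <;> omega
    · have a2 := (deg_S i m).2 n hn
      rw [a2, if_neg (by omega : ¬ n = 0)]
      split_ifs <;> simp <;> omega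

/-- A copy of the pattern with values `f_k`, `f_k`, `f_m`. -/
lemma copy_step (i M k m : ℕ) (hlt : k < m) (hmM : m < M) :
    ∃ a : Fin 5 → MvPolynomial ℕ ℕ, (∀ s, a s ∈ P (i + 1)) ∧ a 0 + a 1 = f i M k ∧
      a 2 * a 3 = f i M k ∧ a 0 ^ i * a 1 + a 4 = f i M m := by
  obtain ⟨t', ht'⟩ := S_dominates i k m hlt
  obtain ⟨z, hz⟩ : ∃ z, z = y k * rr k := ⟨_, rfl⟩
  obtain ⟨w, hw⟩ : ∃ w, w = y k * (Y k M * (u + S i k)) := ⟨_, rfl⟩
  obtain ⟨v, hv⟩ : ∃ v, v = Y k M * (u + S i k) + rr k := ⟨_, rfl⟩
  obtain ⟨t, ht⟩ : ∃ t, t = y m * Y m M * u + y m * Y m M * t' + y m * rr m := ⟨_, rfl⟩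
  have e0 : z + w = f i M k := by
    rw [hz, hw]; unfold f; ring
  have e1 : y k * v = f i M k := by rw [hv]; rfl
  have e2 : z ^ i * w + t = f i M m := by
    have : f i M m = y m * (Y m M * (u + S i m) + rr m) := rfl
    rw [this, ht', hz, hw, ht, Y_split hlt hmM]
    ring
  have hfk := f_mem i M k
  have hfm := f_mem i M m
  have hz0 : z ≠ 0 := by rw [hz]; exact mul_ne_zero (X_ne_zero _) (X_ne_zero _)
  have hYne : Y k M ≠ 0 := Finset.prod_ne_zero_iff.2 fun l _ => X_ne_zero _
  have hu : u + S i k ≠ 0 := by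
    intro h
    have h2 : (u + S i k).support = ∅ := by rw [h]; exact support_zero
    have h3 : u.support ⊆ ∅ := h2 ▸ support_add_left
    have : u = 0 := support_eq_empty.1 (Finset.subset_empty.1 h3)
    exact X_ne_zero _ this
  have hw0 : w ≠ 0 := by rw [hw]; exact mul_ne_zero (X_ne_zero _) (mul_ne_zero hYne hu)
  have ht0 : t ≠ 0 := by
    intro h
    rw [ht] at h
    have h2 : (y m * Y m M * u + y m * Y m M * t' + y m * rr m).support = ∅ := by
      rw [h]; exact support_zero
    have h3 : (y m * rr m).support ⊆ ∅ := h2 ▸ support_add_right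
    have : y m * rr m = 0 := support_eq_empty.1 (Finset.subset_empty.1 h3)
    exact mul_ne_zero (X_ne_zero _) (X_ne_zero _) this
  have mz : z ∈ P (i + 1) := mem_of_add (q := w) (by rw [e0]; exact hfk) hz0
  have mw : w ∈ P (i + 1) := mem_of_add (q := z) (by rw [add_comm w z, e0]; exact hfk) hw0
  have mt : t ∈ P (i + 1) :=
    mem_of_add (q := z ^ i * w) (by rw [add_comm t (z ^ i * w), e2]; exact hfm) ht0
  have mx : y k ∈ P (i + 1) := mem_of_mul (q := v) (by rw [e1]; exact hfk) (by
    rw [← constantCoeff_eq]; exact constantCoeff_X _ _)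
  have mv : v ∈ P (i + 1) := by
    refine mem_of_mul (q := y k) (by rw [mul_comm v (y k), e1]; exact hfk) ?_
    rw [hv, ← constantCoeff_eq, map_add, map_mul, map_add]
    have hS : constantCoeff (S i k) = 0 := by
      clear * -
      induction k with
      | zero => simp [S]
      | succ k ih =>
        have e : S i (k + 1) = y k ^ (i + 1) * rr k ^ i * (u + S i k) + y k * S i k := rfl
        rw [e]
        simp [y]
    rw [hS]
    simp [u, rr]
  refine ⟨![z, w, y k, v, t], ?_, e0, e1, e2⟩
  intro s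
  fin_cases s
  · exact mz
  · exact mw
  · exact mx
  · exact mv
  · exact mt

/-- The pattern is partition regular over `P (i + 1)`. -/
lemma regular_succ (i : ℕ) : PartitionRegular (pat i) (P (i + 1)) := by
  intro r c
  obtain ⟨a, b, hab, hc⟩ := Fintype.exists_ne_map_eq_of_card_lt
    (fun m : Fin (r + 1) => c (f i (r + 1) m.1)) (by simp)

  have key : ∀ k m : ℕ, k < m → m < r + 1 → c (f i (r + 1) k) = c (f i (r + 1) m) →
      ∃ a, IsCopy (pat i) (P (i + 1)) a ∧ ∃ col, ∀ l, c (aeval a (pat i l)) = col := by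
    intro k m hkm hm hc
    obtain ⟨a, h1, h2, h3, h4⟩ := copy_step i (r + 1) k m hkm hm
    refine ⟨a, ⟨h1, fun l => ?_⟩, c (f i (r + 1) k), fun l => ?_⟩
    · fin_cases l
      · show aeval a (pat i 0) ∈ _
        rw [aeval_pat0, h2]; exact f_mem _ _ _
      · show aeval a (pat i 1) ∈ _
        rw [aeval_pat1, h3]; exact f_mem _ _ _
      · show aeval a (pat i 2) ∈ _
        rw [aeval_pat2, h4]; exact f_mem _ _ _
    · fin_cases l
      · show c (aeval a (pat i 0)) = _
        rw [aeval_pat0, h2]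
      · show c (aeval a (pat i 1)) = _
        rw [aeval_pat1, h3]
      · show c (aeval a (pat i 2)) = _
        rw [aeval_pat2, h4, hc]
  rcases lt_trichotomy a.1 b.1 with h | h | h
  · exact key a.1 b.1 h b.2 hc
  · exact absurd (Fin.ext h) hab
  · exact key b.1 a.1 h a.2 hc.symm

lemma P_mono {i j : ℕ} (h : i ≤ j) : P i ⊆ P j := fun _ hf => ⟨hf.1, hf.2.1, fun n => (hf.2.2 n).trans h⟩

lemma regular {i j : ℕ} (h : i < j) : PartitionRegular (pat i) (P j) := by
  intro r c
  obtain ⟨a, ⟨h1, h2⟩, h3⟩ := regular_succ i r c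
  exact ⟨a, ⟨fun s => P_mono h (h1 s), fun l => P_mono h (h2 l)⟩, h3⟩

lemma X_mem {i : ℕ} (hi : 1 ≤ i) (n : ℕ) : (X n : MvPolynomial ℕ ℕ) ∈ P i := by
  refine ⟨X_ne_zero _, ?_, fun m => ?_⟩
  · rw [← constantCoeff_eq]; exact constantCoeff_X _ _
  · rw [degreeOf_X]; split_ifs <;> omega

lemma appears {i : ℕ} (hi : 1 ≤ i) : Appears (pat i) (P i) := by
  refine ⟨fun s => X s.1, fun s => X_mem hi _, fun l => ?_⟩
  have hne : ∀ p : MvPolynomial ℕ ℕ, ∀ n : ℕ, p + X n ≠ 0 := by
    intro p n h
    have h2 : (p + X n : MvPolynomial ℕ ℕ).support = ∅ := by rw [h]; exact support_zero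
    have h3 : (X n : MvPolynomial ℕ ℕ).support ⊆ ∅ := h2 ▸ support_add_right
    exact X_ne_zero _ (support_eq_empty.1 (Finset.subset_empty.1 h3))
  fin_cases l
  · show aeval (fun s : Fin 5 => X s.1) (pat i 0) ∈ _
    rw [aeval_pat0]
    refine ⟨hne _ _, ?_, fun n => ?_⟩
    · rw [← constantCoeff_eq]; simp
    · refine (degreeOf_add_le _ _ _).trans ?_
      rw [degreeOf_X, degreeOf_X]
      split_ifs <;> simp <;> omega
  · show aeval (fun s : Fin 5 => X s.1) (pat i 1) ∈ _
    rw [aeval_pat1]
    refine ⟨mul_ne_zero (X_ne_zero _) (X_ne_zero _), ?_, fun n => ?_⟩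
    · rw [← constantCoeff_eq]; simp
    · refine (degreeOf_mul_le _ _ _).trans ?_
      rw [degreeOf_X, degreeOf_X]
      show (if n = 2 then 1 else 0) + (if n = 3 then 1 else 0) ≤ i
      split_ifs <;> omega
  · show aeval (fun s : Fin 5 => X s.1) (pat i 2) ∈ _
    rw [aeval_pat2]
    refine ⟨hne _ _, ?_, fun n => ?_⟩
    · rw [← constantCoeff_eq]; simp
    · refine (degreeOf_add_le _ _ _).trans (max_le ?_ ?_)
      · refine (degreeOf_mul_le _ _ _).trans ?_
        refine (add_le_add (degreeOf_pow_le _ _ _) le_rfl).trans ?_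
        rw [degreeOf_X, degreeOf_X]
        show i * (if n = 0 then 1 else 0) + (if n = 1 then 1 else 0) ≤ i
        split_ifs <;> omega
      · rw [degreeOf_X]
        split_ifs <;> omega

/-- **Positive answer to Q1.** For all `1 ≤ i < j` there is a pattern (in fact the one given by
`z + w`, `x y`, `z ^ i w + t`) that appears in `P_i`, is partition regular over `P_j`, and is not
partition regular over `P_i`. -/
theorem result : ∀ i j : ℕ, 1 ≤ i → i < j →
    ∃ (k m : ℕ) (F : Fin k → MvPolynomial (Fin m) ℕ), Good F ∧ Appears F (P i) ∧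
      PartitionRegular F (P j) ∧ ¬ PartitionRegular F (P i) :=
  fun i _ hi hij => ⟨3, 5, pat i, good_pat i, appears hi, regular hij, not_regular hi⟩

end Pool.Agent.Results.MP_b358a5_co.Separation
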